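import Pool.Agent.H24.GN.L12
import Pool.Agent.H65.OVN.Box2

/-!
# ROWS of the path lemma (kall, row 352)

The nonfull rows of the TARGET pass to the own graph of the context. `C` is the context, `s` the
position, `Sh` the shape of the own graph to the precision of the top, `A` the top of its height,
`a, a'` the heights of the own graph at two consecutive precisions, `n, n'` the rows of the target
over the position at these precisions. Given the shape and the position (and the context) the rows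
of the target are the heights up to bounded errors.
-/

set_option autoImplicit false

namespace Pool.ROWS

open Finset Real
open Pool.Agent.H49.Ent Pool.Agent.H32.Dense Pool.STK Pool.KS3
open Pool.LIVE20 (mi mi_nonneg)
open Pool.L12 (mi_symm mi_mono mi_pr mi_cond_le mi_cond_le')

variable {Ω 𝒞 𝒮 𝒦 𝒦₀ T U : Type} [Fintype Ω] {p : Ω → ℝ}

/-- Conditioning removed at the cost of the information. -/
theorem ch_le_mi {A K B : Type} (a : Ω → A) (k : Ω → K) (b : Ω → B) :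
    CH p a b = CH p a (fun ω => (k ω, b ω)) + mi p a k b := by
  unfold mi
  ring

/-- **ROWS**: the entropy of the next row of the own height, given the coarser data of the own
graph and the context, is the entropy of the next row of the target given the position and the
context, up to the information `MI(s ; shape, top | context)` and the fine part of the shape. -/
theorem rows_ch (hp : IsLaw p) {C : Ω → 𝒞} {s : Ω → 𝒮} {Sh : Ω → 𝒦} {Sh₀ : Ω → 𝒦₀}
    {A a a' n n' : Ω → ℤ} {Φ Φ' : 𝒦 × (𝒮 × 𝒞) → ℤ} {C₁ : ℝ} (hC : 0 ≤ C₁)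
    (h0 : Det p Sh Sh₀) (ha : Det p A a) (ha' : Det p A a')
    (hn : ∀ ω, 0 < p ω → |((n ω - a ω - Φ (Sh ω, (s ω, C ω)) : ℤ) : ℝ)| ≤ C₁)
    (hn' : ∀ ω, 0 < p ω → |((n' ω - a' ω - Φ' (Sh ω, (s ω, C ω)) : ℤ) : ℝ)| ≤ C₁)
    {μ φ ψ : ℝ} (hμ : mi p s (fun ω => (Sh ω, A ω)) C ≤ μ)
    (hφ : CH p Sh (fun ω => (a ω, (Sh₀ ω, C ω))) ≤ φ)
    (hψ : CH p n' (fun ω => (n ω, (s ω, C ω))) ≤ ψ) :
    CH p a' (fun ω => (a ω, (Sh₀ ω, C ω))) ≤ μ + φ + ψ + 2 * Real.log (4 * C₁ + 1) := by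
  have hp0 := hp.nonneg
  -- the information
  have e1 : mi p a' s (fun ω => (a ω, (Sh₀ ω, C ω))) ≤ μ := by
    have h1 : mi p a' s (fun ω => (a ω, (Sh₀ ω, C ω))) ≤
        mi p (fun ω => (a' ω, (a ω, Sh₀ ω))) s C := by
      have t1 := mi_cond_le' hp0 a' (fun ω => (a ω, Sh₀ ω)) s C
      have t2 : mi p a' s (fun ω => (a ω, (Sh₀ ω, C ω))) ≤
          mi p a' s (fun ω => ((a ω, Sh₀ ω), C ω)) := by
        refine mi_mono hp0 (fun _ _ _ _ h => (Prod.ext_iff.mp h).1)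
          (fun _ _ _ _ h => (Prod.ext_iff.mp h).1) ?_ ?_ <;>
        · intro ω ω' _ _ h
          simp only [Prod.mk.injEq] at h ⊢
          tauto
      exact t2.trans t1
    have h2 : mi p (fun ω => (a' ω, (a ω, Sh₀ ω))) s C ≤ mi p (fun ω => (Sh ω, A ω)) s C := by
      refine mi_mono hp0 ?_ (fun _ _ _ _ h => (Prod.ext_iff.mp h).1) (fun _ _ _ _ h => h)
        (fun _ _ _ _ h => h)
      intro ω ω' p1 p2 h
      simp only [Prod.mk.injEq] at h
      obtain ⟨⟨h3, h4⟩, -⟩ := h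
      exact Prod.ext (ha' ω ω' p1 p2 h4) (Prod.ext (ha ω ω' p1 p2 h4) (h0 ω ω' p1 p2 h3))
    rw [mi_symm hp0 (fun ω => (Sh ω, A ω)) s C] at h2
    exact (h1.trans h2).trans hμ
  -- with the position
  have e2 : CH p a' (fun ω => (s ω, (a ω, (Sh₀ ω, C ω)))) ≤
      φ + ψ + 2 * Real.log (4 * C₁ + 1) := by
    -- the fine part of the shape
    have t1 : CH p a' (fun ω => (s ω, (a ω, (Sh₀ ω, C ω)))) ≤
        CH p Sh (fun ω => (s ω, (a ω, (Sh₀ ω, C ω)))) +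
          CH p a' (fun ω => (Sh ω, (s ω, (a ω, (Sh₀ ω, C ω))))) := CH_le_add hp0 _ _ _
    have t2 : CH p Sh (fun ω => (s ω, (a ω, (Sh₀ ω, C ω)))) ≤ φ :=
      (CH_mono_cond hp0 fun _ _ _ _ h => (Prod.ext_iff.mp h).2).trans hφ
    -- the row of the target
    have t3 : CH p a' (fun ω => (Sh ω, (s ω, (a ω, (Sh₀ ω, C ω))))) ≤
        CH p n (fun ω => (Sh ω, (s ω, (a ω, (Sh₀ ω, C ω))))) +
          CH p a' (fun ω => (n ω, (Sh ω, (s ω, (a ω, (Sh₀ ω, C ω)))))) := CH_le_add hp0 _ _ _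
    have t4 : CH p a' (fun ω => (n ω, (Sh ω, (s ω, (a ω, (Sh₀ ω, C ω)))))) ≤
        CH p n' (fun ω => (n ω, (Sh ω, (s ω, (a ω, (Sh₀ ω, C ω)))))) +
          CH p a' (fun ω => (n' ω, (n ω, (Sh ω, (s ω, (a ω, (Sh₀ ω, C ω))))))) :=
      CH_le_add hp0 _ _ _
    have t5 : CH p n (fun ω => (Sh ω, (s ω, (a ω, (Sh₀ ω, C ω))))) ≤ Real.log (4 * C₁ + 1) := by
      refine (CH_mono_cond hp0 ?_).trans
        (Pool.OVN.CH_near hp n a (fun ω => (Sh ω, (s ω, C ω))) Φ C₁ hC hn)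
      intro ω ω' _ _ h
      simp only [Prod.mk.injEq] at h ⊢
      tauto
    have t6 : CH p a' (fun ω => (n' ω, (n ω, (Sh ω, (s ω, (a ω, (Sh₀ ω, C ω))))))) ≤
        Real.log (4 * C₁ + 1) := by
      refine (CH_mono_cond hp0 ?_).trans
        (Pool.OVN.CH_near' hp n' a' (fun ω => (Sh ω, (s ω, C ω))) Φ' C₁ hC hn')
      intro ω ω' _ _ h
      simp only [Prod.mk.injEq] at h ⊢
      tauto
    have t7 : CH p n' (fun ω => (n ω, (Sh ω, (s ω, (a ω, (Sh₀ ω, C ω)))))) ≤ ψ := by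
      refine (CH_mono_cond hp0 ?_).trans hψ
      intro ω ω' _ _ h
      simp only [Prod.mk.injEq] at h ⊢
      tauto
    linarith
  rw [ch_le_mi a' s]
  linarith

/-- **ROWS, the final form**: rows of the target nonfull by `c₀` of the window `h`, almost
independence and small fine shape (`δ X`, `δ X`) give rows of the own height nonfull by `c₀ / 2`. -/
theorem rows_half (hp : IsLaw p) {C : Ω → 𝒞} {s : Ω → 𝒮} {Sh : Ω → 𝒦} {Sh₀ : Ω → 𝒦₀}
    {A a a' n n' : Ω → ℤ} {Φ Φ' : 𝒦 × (𝒮 × 𝒞) → ℤ} {C₁ : ℝ} (hC : 0 ≤ C₁)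
    (h0 : Det p Sh Sh₀) (ha : Det p A a) (ha' : Det p A a')
    (hn : ∀ ω, 0 < p ω → |((n ω - a ω - Φ (Sh ω, (s ω, C ω)) : ℤ) : ℝ)| ≤ C₁)
    (hn' : ∀ ω, 0 < p ω → |((n' ω - a' ω - Φ' (Sh ω, (s ω, C ω)) : ℤ) : ℝ)| ≤ C₁)
    {δ X h c₀ : ℝ} (hμ : mi p s (fun ω => (Sh ω, A ω)) C ≤ δ * X)
    (hφ : CH p Sh (fun ω => (a ω, (Sh₀ ω, C ω))) ≤ δ * X)
    (hψ : CH p n' (fun ω => (n ω, (s ω, C ω))) ≤ (1 - c₀) * (h * Real.log 2))
    (hδ : 2 * (δ * X) + 2 * Real.log (4 * C₁ + 1) ≤ c₀ / 2 * (h * Real.log 2)) :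
    CH p a' (fun ω => (a ω, (Sh₀ ω, C ω))) ≤ (1 - c₀ / 2) * (h * Real.log 2) := by
  have := rows_ch hp hC h0 ha ha' hn hn' hμ hφ hψ
  linarith

end Pool.ROWS
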