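import Pool.Agent.H8.GEN.FStep
import Pool.Agent.H99.GN.Rows

/-!
# The rows of the path lemma

`Row` of `Pool.GPath.Dat` from the rows of the target over the large box (`Pool.FSTP.FDat`): the
own graph over the cell is the target up to the position, the position is almost independent of
the own graph, and the fine part of the shape is small by `FR`.
-/

set_option autoImplicit false

namespace Pool.ROWS

open Finset Real MvPolynomial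
open Pool.Agent.H49.Ent Pool.Agent.H32.Dense Pool.STK Pool.KAF Pool.SLO Pool.SLP
open Pool.LIVE20 (mi mi_nonneg)
open Pool.L12 (mi_symm mi_mono mi_pr mi_cond_le mi_cond_le')
open Pool.BFL (Pb)
open Pool.FSTP

variable {k : ℕ}

/-- The height of the own sheet as a coefficient. -/
theorem g0_eq (d : GPath.Dat (k + 1)) (i₁ : Fin (k + 1)) (ω : d.Om) :
    d.g0 i₁ ω = coeff 0 (sect i₁ (d.tm ω) (d.G ω)) := by
  rw [coeff_sect_zero]
  rfl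

/-- **The own graph of the context given the own sheet of the large box.** -/
theorem out_ger (k K : ℕ) (C₁ : ℝ) (hC₁ : 0 ≤ C₁) : ∃ C : ℝ, 0 ≤ C ∧
    ∀ (d : GPath.Dat (k + 1)) (f : FDat k d.Om) (i₁ : Fin (k + 1)) (a Q e : ℕ) (D : ℝ),
      IsLaw d.p → (∀ ω, (d.G ω).totalDegree ≤ K) → f.OK d.p K e C₁ D → Cls d f i₁ a Q C₁ →
      Det d.p (fun ω => (d.T ω, d.E ω)) (fun ω => fl a (f.s ω)) →
      ∀ q : d.Om → ℝ, IsLaw q → (∀ ω, 0 < q ω → 0 < d.p ω) →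
      CH q (fun ω => (d.Sh i₁ K Q ω, ⌊(2 : ℝ) ^ Q * d.g0 i₁ ω⌋))
        (fun ω => (f.B ω, (d.T ω, d.E ω))) ≤ C := by
  classical
  obtain ⟨C, hC, hcl⟩ := cls_coeff k K
  have hl : 0 ≤ Real.log (2 * (2 * (C * C₁) + 2) + 1) := Real.log_nonneg (by
    have : 0 ≤ C * C₁ := by positivity
    linarith)
  refine ⟨(mons (k + 1) K).card * Real.log (2 * (2 * (C * C₁) + 2) + 1), by positivity, ?_⟩
  intro d f i₁ a Q e D hp hG hf hc hdet q hq hqp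
  refine ch_mons hq (mons (k + 1) K) (fun ω => SLO.hz Q (fixt i₁ (d.tm ω) (d.G ω))) _ _ _ ?_ ?_
  · intro ω ω' hω hω' hh al hal
    have e1 := Prod.ext_iff.1 hh
    have e2 : fl a (f.s ω) = fl a (f.s ω') := hdet ω ω' (hqp ω hω) (hqp ω' hω') e1.2
    have e4 : f.B ω = f.B ω' := e1.1
    have e3 : (sd d f K).ger a ω = (sd d f K).ger a ω' := by
      rw [sd_ger hf, sd_ger hf, e2, e4]
    change |((⌊(2 : ℝ) ^ Q * coeff al (fixt i₁ (d.tm ω) (d.G ω))⌋ -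
      ⌊(2 : ℝ) ^ Q * coeff al (fixt i₁ (d.tm ω') (d.G ω'))⌋ : ℤ) : ℝ)| ≤ _
    by_cases hs : ∃ s : Fin k →₀ ℕ, s.mapDomain i₁.succAbove = al
    · obtain ⟨s, hs⟩ := hs
      rw [← hs, coeff_fixt_map, coeff_fixt_map]
      have h1 := hcl d f i₁ a Q e C₁ D hG hf hc ω (hqp ω hω) s
      have h2 := hcl d f i₁ a Q e C₁ D hG hf hc ω' (hqp ω' hω') s
      rw [e3] at h1
      obtain ⟨y, hy⟩ : ∃ y : ℝ, y = coeff s ((sd d f K).ger a ω') := ⟨_, rfl⟩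
      rw [← hy] at h1 h2
      have h3 := Pool.FSTP.hz_two (Q := Q) (M := C * C₁) h1 h2 (Eq.refl ⌊(2 : ℝ) ^ Q * y⌋)
      exact h3
    · rw [coeff_fixt_zero _ _ _ hs, coeff_fixt_zero _ _ _ hs, sub_self, Int.cast_zero, abs_zero]
      positivity
  · intro ω ω' _ _ _ hh
    refine Prod.ext ?_ ?_
    · funext al
      change d.Sh i₁ K Q ω al = d.Sh i₁ K Q ω' al
      unfold GPath.Dat.Sh
      by_cases h2 : al ∈ mons (k + 1) K ∧ al ≠ 0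
      · rw [if_pos h2, if_pos h2]
        exact hh al h2.1
      · rw [if_neg h2, if_neg h2]
    · have h0 := hh 0 (by
        rw [mem_mons]
        simp)
      have h1 : ∀ ω₀ : d.Om, coeff 0 (fixt i₁ (d.tm ω₀) (d.G ω₀)) = d.g0 i₁ ω₀ := by
        intro ω₀
        have := coeff_fixt_map i₁ (d.tm ω₀) (d.G ω₀) 0
        rw [Finsupp.mapDomain_zero] at this
        rw [this, g0_eq]
      change ⌊(2 : ℝ) ^ Q * coeff 0 (fixt i₁ (d.tm ω) (d.G ω))⌋ =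
        ⌊(2 : ℝ) ^ Q * coeff 0 (fixt i₁ (d.tm ω') (d.G ω'))⌋ at h0
      rwa [h1, h1] at h0

/-- The value of the own graph over the position, from the shape. -/
noncomputable def val (K Q a R : ℕ) (i₁ : Fin (k + 1)) (sh : (Fin (k + 1) →₀ ℕ) → ℤ)
    (s : Fin k → ℝ) : ℤ :=
  ⌊(2 : ℝ) ^ R * ∑ σ ∈ (mons k K).erase 0, (sh (σ.mapDomain i₁.succAbove) : ℝ) / 2 ^ Q *
    ∏ j, ((2 : ℝ) ^ a * s j - fl a s j) ^ σ j⌋

theorem eval_erase {K : ℕ} (P : MvPolynomial (Fin k) ℝ) (hP : P.totalDegree ≤ K)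
    (z : Fin k → ℝ) :
    eval z P = coeff 0 P + ∑ σ ∈ (mons k K).erase 0, coeff σ P * ∏ j, z j ^ σ j := by
  classical
  have h0 : (0 : Fin k →₀ ℕ) ∈ mons k K := by
    rw [mem_mons]
    simp
  have h1 : eval z P = ∑ σ ∈ mons k K, coeff σ P * ∏ j, z j ^ σ j := by
    rw [MvPolynomial.eval_eq']
    refine Finset.sum_subset (fun σ hσ => ?_) (fun σ _ hσ => ?_)
    · rw [mem_mons]
      exact (le_totalDegree hσ).trans hP
    · rw [notMem_support_iff.1 hσ, zero_mul]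
  rw [h1, ← Finset.add_sum_erase _ _ h0]
  simp

/-- **The rows of the target are the heights of the own graph**, given the shape and the position. -/
theorem row_near (d : GPath.Dat (k + 1)) (f : FDat k d.Om) (i₁ : Fin (k + 1)) {K a Q R e : ℕ}
    {C₁ D : ℝ} (hC₁ : 0 ≤ C₁) (hG : ∀ ω, (d.G ω).totalDegree ≤ K) (hf : f.OK d.p K e C₁ D)
    (hc : Cls d f i₁ a Q C₁) (hR : R ≤ e) (hRQ : R ≤ Q) {ω : d.Om} (hω : 0 < d.p ω) :
    |((f.N R ω - ⌊(2 : ℝ) ^ R * d.g0 i₁ ω⌋ - val K Q a R i₁ (d.Sh i₁ K Q ω) (f.s ω) : ℤ) : ℝ)| ≤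
      2 * C₁ + (mons k K).card + 2 := by
  classical
  obtain ⟨z, hz⟩ : ∃ z : Fin k → ℝ, z = fun j => (2 : ℝ) ^ a * f.s ω j - fl a (f.s ω) j :=
    ⟨_, rfl⟩
  have hp : (0 : ℝ) < 2 ^ a := by positivity
  have hz0 : ∀ j, 0 ≤ z j ∧ z j ≤ 1 := by
    intro j
    rw [hz]
    have h1 := Int.floor_le ((2 : ℝ) ^ a * f.s ω j)
    have h2 := Int.lt_floor_add_one ((2 : ℝ) ^ a * f.s ω j)
    change 0 ≤ (2 : ℝ) ^ a * f.s ω j - (⌊(2 : ℝ) ^ a * f.s ω j⌋ : ℝ) ∧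
      (2 : ℝ) ^ a * f.s ω j - (⌊(2 : ℝ) ^ a * f.s ω j⌋ : ℝ) ≤ 1
    constructor <;> linarith
  have hs : (fun j => (fl a (f.s ω) j : ℝ) / 2 ^ a + 1 / 2 ^ a * z j) = f.s ω := by
    funext j
    rw [hz]
    field_simp
    ring
  have h1 := hc ω hω z hz0
  rw [hs] at h1
  have h2 := hf.near ω hω R hR
  have e1 : eval (Fin.insertNth (α := fun _ => ℝ) i₁ (d.tm ω) z) (d.G ω) =
      eval z (sect i₁ (d.tm ω) (d.G ω)) := (eval_sect _ _ _ _).symm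
  rw [e1, eval_erase _ ((totalDegree_sect_le _ _ _).trans (hG ω)) z, ← g0_eq] at h1
  have hQ : (0 : ℝ) < 2 ^ Q := by positivity
  have hRp : (0 : ℝ) < 2 ^ R := by positivity
  have hRQ' : (2 : ℝ) ^ R ≤ 2 ^ Q := pow_le_pow_right₀ (by norm_num) hRQ
  -- the shape
  have h3 : |∑ σ ∈ (mons k K).erase 0, coeff σ (sect i₁ (d.tm ω) (d.G ω)) * ∏ j, z j ^ σ j -
      ∑ σ ∈ (mons k K).erase 0, (d.Sh i₁ K Q ω (σ.mapDomain i₁.succAbove) : ℝ) / 2 ^ Q *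
        ∏ j, z j ^ σ j| ≤ (mons k K).card / 2 ^ Q := by
    rw [← Finset.sum_sub_distrib]
    refine (Finset.abs_sum_le_sum_abs _ _).trans ?_
    have h4 : ∀ σ ∈ (mons k K).erase 0, |coeff σ (sect i₁ (d.tm ω) (d.G ω)) * ∏ j, z j ^ σ j -
        (d.Sh i₁ K Q ω (σ.mapDomain i₁.succAbove) : ℝ) / 2 ^ Q * ∏ j, z j ^ σ j| ≤
        1 / 2 ^ Q := by
      intro σ hσ
      rw [Finset.mem_erase] at hσ
      have h5 : σ.mapDomain i₁.succAbove ≠ 0 := fun h => hσ.1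
        (Finsupp.mapDomain_injective Fin.succAbove_right_injective
          (h.trans Finsupp.mapDomain_zero.symm))
      have h6 : d.Sh i₁ K Q ω (σ.mapDomain i₁.succAbove) =
          ⌊(2 : ℝ) ^ Q * coeff σ (sect i₁ (d.tm ω) (d.G ω))⌋ := by
        unfold GPath.Dat.Sh
        rw [if_pos ⟨map_mem_mons i₁ hσ.2, h5⟩]
        unfold SLO.hz
        rw [coeff_fixt_map]
      rw [← sub_mul, abs_mul, h6]
      have h7 : |∏ j, z j ^ σ j| ≤ 1 := by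
        rw [Finset.abs_prod]
        refine Finset.prod_le_one (fun j _ => abs_nonneg _) fun j _ => ?_
        rw [abs_pow, abs_of_nonneg (hz0 j).1]
        exact pow_le_one₀ (hz0 j).1 (hz0 j).2
      have h8 : |coeff σ (sect i₁ (d.tm ω) (d.G ω)) -
          (⌊(2 : ℝ) ^ Q * coeff σ (sect i₁ (d.tm ω) (d.G ω))⌋ : ℝ) / 2 ^ Q| ≤ 1 / 2 ^ Q := by
        have g1 := Int.floor_le ((2 : ℝ) ^ Q * coeff σ (sect i₁ (d.tm ω) (d.G ω)))
        have g2 := Int.lt_floor_add_one ((2 : ℝ) ^ Q * coeff σ (sect i₁ (d.tm ω) (d.G ω)))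
        have e2 : coeff σ (sect i₁ (d.tm ω) (d.G ω)) -
            (⌊(2 : ℝ) ^ Q * coeff σ (sect i₁ (d.tm ω) (d.G ω))⌋ : ℝ) / 2 ^ Q =
            (2 ^ Q * coeff σ (sect i₁ (d.tm ω) (d.G ω)) -
              (⌊(2 : ℝ) ^ Q * coeff σ (sect i₁ (d.tm ω) (d.G ω))⌋ : ℝ)) / 2 ^ Q := by
          field_simp
        rw [e2, abs_div, abs_of_pos hQ]
        refine div_le_div_of_nonneg_right ?_ hQ.le
        rw [abs_le]
        constructor <;> linarith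
      calc _ ≤ 1 / (2 : ℝ) ^ Q * 1 := mul_le_mul h8 h7 (abs_nonneg _) (by positivity)
        _ = 1 / 2 ^ Q := mul_one _
    refine (Finset.sum_le_sum h4).trans ?_
    rw [Finset.sum_const, nsmul_eq_mul]
    have h9 : (((mons k K).erase 0).card : ℝ) ≤ (mons k K).card := by
      exact_mod_cast Finset.card_le_card (Finset.erase_subset _ _)
    calc (((mons k K).erase 0).card : ℝ) * (1 / 2 ^ Q) ≤ (mons k K).card * (1 / 2 ^ Q) :=
          mul_le_mul_of_nonneg_right h9 (by positivity)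
      _ = _ := by ring
  obtain ⟨S₁, hS₁⟩ : ∃ S₁ : ℝ, S₁ = ∑ σ ∈ (mons k K).erase 0,
    coeff σ (sect i₁ (d.tm ω) (d.G ω)) * ∏ j, z j ^ σ j := ⟨_, rfl⟩
  obtain ⟨S₂, hS₂⟩ : ∃ S₂ : ℝ, S₂ = ∑ σ ∈ (mons k K).erase 0,
    (d.Sh i₁ K Q ω (σ.mapDomain i₁.succAbove) : ℝ) / 2 ^ Q * ∏ j, z j ^ σ j := ⟨_, rfl⟩
  rw [← hS₁, ← hS₂] at h3
  rw [← hS₁] at h1
  have hv : val K Q a R i₁ (d.Sh i₁ K Q ω) (f.s ω) = ⌊(2 : ℝ) ^ R * S₂⌋ := by
    unfold val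
    rw [hS₂, hz]
  rw [hv]
  have k1 : |2 ^ R * (d.g0 i₁ ω + S₁) - 2 ^ R * eval (f.s ω) (f.B ω)| ≤ C₁ := by
    rw [← mul_sub, abs_mul, abs_of_pos hRp]
    calc (2 : ℝ) ^ R * |d.g0 i₁ ω + S₁ - eval (f.s ω) (f.B ω)| ≤ 2 ^ R * (C₁ / 2 ^ Q) :=
          mul_le_mul_of_nonneg_left h1 hRp.le
      _ ≤ 2 ^ Q * (C₁ / 2 ^ Q) := mul_le_mul_of_nonneg_right hRQ' (by positivity)
      _ = C₁ := by field_simp
  have k2 : |(2 : ℝ) ^ R * S₁ - 2 ^ R * S₂| ≤ (mons k K).card := by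
    rw [← mul_sub, abs_mul, abs_of_pos hRp]
    calc (2 : ℝ) ^ R * |S₁ - S₂| ≤ 2 ^ R * ((mons k K).card / 2 ^ Q) :=
          mul_le_mul_of_nonneg_left h3 hRp.le
      _ ≤ 2 ^ Q * ((mons k K).card / 2 ^ Q) := mul_le_mul_of_nonneg_right hRQ' (by positivity)
      _ = (mons k K).card := by field_simp
  have k3 := Int.floor_le ((2 : ℝ) ^ R * d.g0 i₁ ω)
  have k4 := Int.lt_floor_add_one ((2 : ℝ) ^ R * d.g0 i₁ ω)
  have k5 := Int.floor_le ((2 : ℝ) ^ R * S₂)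
  have k6 := Int.lt_floor_add_one ((2 : ℝ) ^ R * S₂)
  push_cast
  rw [abs_le] at h2 k1 k2 ⊢
  constructor <;> nlinarith [h2.1, h2.2, k1.1, k1.2, k2.1, k2.2]

/-- **The rows of the path lemma.** -/
theorem row_of (k K : ℕ) (c κ π₀ C₁ : ℝ) (hc : 0 < c) (hκ : 0 < κ) (hπ : 0 < π₀)
    (hC₁ : 0 ≤ C₁) : ∃ (δ₀ : ℝ) (X₀ : ℕ), 0 < δ₀ ∧
      ∀ (d : GPath.Dat (k + 1)) (f : FDat k d.Om) (i₁ : Fin (k + 1)) (a e X : ℕ) (D : ℝ),
        X₀ ≤ X → IsLaw d.p → (∀ ω, (d.G ω).totalDegree ≤ K) → f.OK d.p K (e + X) C₁ D →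
        Det d.p (fun ω => (d.T ω, d.E ω)) (fun ω => (f.Z ω, fl a (f.s ω))) →
        Cls d f i₁ a (e + X) C₁ → mi d.p f.B f.s (fun ω => (d.T ω, d.E ω)) ≤ δ₀ * X →
        d.FR i₁ K e X (δ₀ * X) → f.Row d.p K (e + X) X c (κ / 2) π₀ →
        d.Row i₁ K e X (c / 2) κ π₀ := by
  have hl2 : 0 < Real.log 2 := Real.log_pos (by norm_num)
  obtain ⟨C, hC, hger⟩ := out_ger k K C₁ hC₁
  obtain ⟨C₂, hC₂⟩ : ∃ C₂ : ℝ, C₂ = 2 * C₁ + (mons k K).card + 2 := ⟨_, rfl⟩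
  have hC₂0 : 0 ≤ C₂ := by rw [hC₂]; positivity
  obtain ⟨L, hL⟩ : ∃ L : ℝ, L = Real.log 2 / π₀ + C + 2 * Real.log (4 * C₂ + 1) := ⟨_, rfl⟩
  obtain ⟨X₁, hX₁⟩ := exists_nat_ge (L / (c * κ * Real.log 2 / 8))
  obtain ⟨X₂, hX₂⟩ := exists_nat_ge (2 / κ)
  refine ⟨c * κ * π₀ * Real.log 2 / 16, max X₁ X₂, by positivity, ?_⟩
  intro d f i₁ a e X D hX hp hG hf hdet hcl hmi hFR hrow j hj B hB hπB
  have hX0 : (0 : ℝ) ≤ X := Nat.cast_nonneg X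
  have hLX : L ≤ c * κ * Real.log 2 / 8 * X := by
    rw [div_le_iff₀ (by positivity)] at hX₁
    have h1 : (X₁ : ℝ) ≤ X := by exact_mod_cast (le_max_left _ _).trans hX
    calc L ≤ X₁ * (c * κ * Real.log 2 / 8) := hX₁
      _ ≤ X * (c * κ * Real.log 2 / 8) := mul_le_mul_of_nonneg_right h1 (by positivity)
      _ = _ := by ring
  have hκX : 2 ≤ κ * X := by
    rw [div_le_iff₀ hκ] at hX₂
    have h1 : (X₂ : ℝ) ≤ X := by exact_mod_cast (le_max_right _ _).trans hX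
    calc (2 : ℝ) ≤ X₂ * κ := hX₂
      _ ≤ X * κ := mul_le_mul_of_nonneg_right h1 hκ.le
      _ = _ := by ring
  obtain ⟨h, hh⟩ : ∃ h : ℕ, h = ⌊κ * X⌋₊ := ⟨_, rfl⟩
  rw [← hh] at hj ⊢
  have hh1 : κ / 2 * X ≤ h := by
    have := Nat.lt_floor_add_one (κ * X)
    rw [← hh] at this
    linarith
  have hjh : e + (j * h + h) ≤ e + X := by
    have : (j + 1) * h = j * h + h := by ring
    omega
  have hE' : π₀ ≤ Pb d.p B := by
    have h1 := Pr_Pb d.p {ω | B ω}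
    rw [h1] at hπB
    exact hπB
  have hq := Pool.MIC.isLaw_ev hp B (hπ.trans_le hE')
  obtain ⟨q, hqd⟩ : ∃ q : d.Om → ℝ, q = Pool.Agent.H49.Ent.cond d.p B True := ⟨_, rfl⟩
  rw [← hqd] at hq ⊢
  have hqp : ∀ ω, 0 < q ω → 0 < d.p ω := fun ω hω => by
    rw [hqd] at hω
    exact (Pool.MIC.ev_pos hp.nonneg _ hω).1
  have hdetT : Det d.p (fun ω => (d.T ω, d.E ω)) (fun ω => fl a (f.s ω)) := fun ω ω' h1 h2 h3 =>
    (Prod.ext_iff.1 (hdet ω ω' h1 h2 h3)).2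
  have hdetZ : Det d.p (fun ω => (d.T ω, d.E ω)) f.Z := fun ω ω' h1 h2 h3 =>
    (Prod.ext_iff.1 (hdet ω ω' h1 h2 h3)).1
  -- the information
  have m1 : mi q f.B f.s (fun ω => (d.T ω, d.E ω)) ≤
      c * κ * Real.log 2 / 16 * X + Real.log 2 / π₀ := by
    have t1 := Pool.MIC.mi_event hp f.B (fun ω => (d.T ω, d.E ω))
      (fun ω => (f.s ω, (d.T ω, d.E ω))) (fun ω ω' _ _ e => (Prod.ext_iff.1 e).2)
      (θ := c * κ * π₀ * Real.log 2 / 16 * X) (by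
        have := hmi
        unfold mi at this
        linarith) B
    rw [← hqd] at t1
    have t2 := mi_nonneg hq.nonneg f.B f.s (fun ω => (d.T ω, d.E ω))
    have t3 : Pb d.p B * mi q f.B f.s (fun ω => (d.T ω, d.E ω)) ≤
        c * κ * π₀ * Real.log 2 / 16 * X + Real.log 2 := by
      unfold mi
      rw [mul_sub]
      linarith
    have t4 : π₀ * mi q f.B f.s (fun ω => (d.T ω, d.E ω)) ≤
        c * κ * π₀ * Real.log 2 / 16 * X + Real.log 2 :=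
      (mul_le_mul_of_nonneg_right hE' t2).trans t3
    have t5 : c * κ * π₀ * Real.log 2 / 16 * X + Real.log 2 =
        π₀ * (c * κ * Real.log 2 / 16 * X + Real.log 2 / π₀) := by
      field_simp
    rw [t5] at t4
    exact le_of_mul_le_mul_left t4 hπ
  have m2 : mi q f.s (fun ω => (d.Sh i₁ K (e + X) ω, ⌊(2 : ℝ) ^ (e + X) * d.g0 i₁ ω⌋))
      (fun ω => (d.T ω, d.E ω)) ≤ c * κ * Real.log 2 / 16 * X + Real.log 2 / π₀ + C := by
    have t1 : mi q f.s (fun ω => (d.Sh i₁ K (e + X) ω, ⌊(2 : ℝ) ^ (e + X) * d.g0 i₁ ω⌋))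
        (fun ω => (d.T ω, d.E ω)) ≤ mi q f.s (fun ω => (f.B ω,
          (d.Sh i₁ K (e + X) ω, ⌊(2 : ℝ) ^ (e + X) * d.g0 i₁ ω⌋))) (fun ω => (d.T ω, d.E ω)) := by
      refine mi_mono hq.nonneg (fun _ _ _ _ h => (Prod.ext_iff.mp h).1) ?_
        (fun _ _ _ _ h => h) (fun _ _ _ _ h => h)
      intro ω ω' _ _ h
      exact (Prod.ext_iff.1 (Prod.ext_iff.1 h).1).2
    have t2 := mi_pr hq.nonneg f.s f.B
      (fun ω => (d.Sh i₁ K (e + X) ω, ⌊(2 : ℝ) ^ (e + X) * d.g0 i₁ ω⌋)) (fun ω => (d.T ω, d.E ω))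
    have t3 := mi_symm hq.nonneg f.s f.B (fun ω => (d.T ω, d.E ω))
    have t4 := mi_symm hq.nonneg f.s
      (fun ω => (d.Sh i₁ K (e + X) ω, ⌊(2 : ℝ) ^ (e + X) * d.g0 i₁ ω⌋))
      (fun ω => (f.B ω, (d.T ω, d.E ω)))
    have t5 : mi q (fun ω => (d.Sh i₁ K (e + X) ω, ⌊(2 : ℝ) ^ (e + X) * d.g0 i₁ ω⌋)) f.s
        (fun ω => (f.B ω, (d.T ω, d.E ω))) ≤ C := by
      have t6 := hger d f i₁ a (e + X) (e + X) D hp hG hf hcl hdetT q hq hqp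
      have t7 := CH_nonneg hq.nonneg
        (fun ω => (d.Sh i₁ K (e + X) ω, ⌊(2 : ℝ) ^ (e + X) * d.g0 i₁ ω⌋))
        (fun ω => (f.s ω, (f.B ω, (d.T ω, d.E ω))))
      unfold mi
      linarith
    linarith
  -- the fine shape
  have m3 : CH q (d.Sh i₁ K (e + X)) (fun ω => (⌊(2 : ℝ) ^ (e + j * h) * d.g0 i₁ ω⌋,
      (d.Sh i₁ K e ω, (d.T ω, d.E ω)))) ≤ c * κ * Real.log 2 / 16 * X := by
    have t1 : CH q (d.Sh i₁ K (e + X)) (fun ω => (⌊(2 : ℝ) ^ (e + j * h) * d.g0 i₁ ω⌋,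
        (d.Sh i₁ K e ω, (d.T ω, d.E ω)))) ≤ CH q (d.Sh i₁ K (e + X)) (d.bx i₁ K e) := by
      refine CH_mono_cond hq.nonneg fun ω ω' _ _ h1 => ?_
      simp only [Prod.mk.injEq] at h1
      obtain ⟨g1, g2, g3, g4⟩ := h1
      unfold GPath.Dat.bx
      refine Prod.ext (Prod.ext g3 g4) (Prod.ext ?_ g2)
      change ⌊(2 : ℝ) ^ e * d.g0 i₁ ω⌋ = ⌊(2 : ℝ) ^ e * d.g0 i₁ ω'⌋
      rw [ht_div e (j * h) (d.g0 i₁ ω), ht_div e (j * h) (d.g0 i₁ ω'), g1]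
    have t2 := Pool.MIC.CH_ev_le hp.nonneg (d.Sh i₁ K (e + X)) (d.bx i₁ K e) B
    rw [← hqd] at t2
    have t3 : CH d.p (d.Sh i₁ K (e + X)) (d.bx i₁ K e) ≤ c * κ * π₀ * Real.log 2 / 16 * X := hFR
    have t4 := CH_nonneg hq.nonneg (d.Sh i₁ K (e + X)) (d.bx i₁ K e)
    have t5 : π₀ * CH q (d.Sh i₁ K (e + X)) (d.bx i₁ K e) ≤
        π₀ * (c * κ * Real.log 2 / 16 * X) := by
      refine (mul_le_mul_of_nonneg_right hE' t4).trans ((t2.trans t3).trans (le_of_eq ?_))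
      ring
    exact t1.trans (le_of_mul_le_mul_left t5 hπ)
  -- the rows of the target
  have m4 : CH q (f.N (e + (j * h + h))) (fun ω => (f.N (e + j * h) ω,
      (f.s ω, (d.T ω, d.E ω)))) ≤ (1 - c) * (h * Real.log 2) := by
    have t1 := hrow (e + j * h) h hh1 (by nlinarith [Nat.zero_le (K * X)]) (by omega) {ω | B ω} hπB
    have e1 : e + j * h + h = e + (j * h + h) := by ring
    rw [e1] at t1
    have t2 : CH q (f.N (e + (j * h + h))) (fun ω => (f.N (e + j * h) ω, (f.s ω, f.Z ω))) ≤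
        (1 - c) * (h * Real.log 2) := by
      rw [hqd]
      exact t1
    refine (CH_mono_cond hq.nonneg fun ω ω' h1 h2 h3 => ?_).trans t2
    simp only [Prod.mk.injEq] at h3
    obtain ⟨g1, g2, g3⟩ := h3
    exact Prod.ext g1 (Prod.ext g2 (hdetZ ω ω' (hqp ω h1) (hqp ω' h2)
      (Prod.ext g3.1 g3.2)))
  -- the end
  have hdv : ∀ {R : ℕ}, R ≤ e + X → Det q (fun ω => ⌊(2 : ℝ) ^ (e + X) * d.g0 i₁ ω⌋)
      (fun ω => ⌊(2 : ℝ) ^ R * d.g0 i₁ ω⌋) := by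
    intro R hR ω ω' _ _ h1
    obtain ⟨t, ht⟩ := Nat.exists_eq_add_of_le hR
    simp only at h1 ⊢
    rw [ht_div R t (d.g0 i₁ ω), ht_div R t (d.g0 i₁ ω'), ← ht, h1]
  have main := rows_ch hq (C := fun ω => (d.T ω, d.E ω)) (s := f.s) (Sh := d.Sh i₁ K (e + X))
    (Sh₀ := d.Sh i₁ K e) (A := fun ω => ⌊(2 : ℝ) ^ (e + X) * d.g0 i₁ ω⌋)
    (a := fun ω => ⌊(2 : ℝ) ^ (e + j * h) * d.g0 i₁ ω⌋)
    (a' := fun ω => ⌊(2 : ℝ) ^ (e + (j * h + h)) * d.g0 i₁ ω⌋)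
    (n := f.N (e + j * h)) (n' := f.N (e + (j * h + h)))
    (Φ := fun y => val K (e + X) a (e + j * h) i₁ y.1 y.2.1)
    (Φ' := fun y => val K (e + X) a (e + (j * h + h)) i₁ y.1 y.2.1) (C₁ := C₂) hC₂0
    ?_ (hdv (by omega)) (hdv hjh) (fun ω hω => ?_) (fun ω hω => ?_) m2 m3 m4
  · have t1 : CH q (fun ω => ⌊(2 : ℝ) ^ (e + (j * h + h)) * d.g0 i₁ ω⌋)
        (fun ω => (⌊(2 : ℝ) ^ (e + j * h) * d.g0 i₁ ω⌋, d.bx i₁ K e ω)) ≤
        CH q (fun ω => ⌊(2 : ℝ) ^ (e + (j * h + h)) * d.g0 i₁ ω⌋)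
        (fun ω => (⌊(2 : ℝ) ^ (e + j * h) * d.g0 i₁ ω⌋, (d.Sh i₁ K e ω, (d.T ω, d.E ω)))) := by
      refine CH_mono_cond hq.nonneg fun ω ω' _ _ h1 => ?_
      have g1 := Prod.ext_iff.1 h1
      have g2 := Prod.ext_iff.1 g1.2
      have g3 := Prod.ext_iff.1 g2.2
      exact Prod.ext g1.1 (Prod.ext g3.2 g2.1)
    refine t1.trans (main.trans ?_)
    have t2 : c / 2 * (κ / 2 * X) * Real.log 2 ≤ c / 2 * h * Real.log 2 :=
      mul_le_mul_of_nonneg_right (mul_le_mul_of_nonneg_left hh1 (by positivity)) hl2.le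
    rw [hL] at hLX
    nlinarith
  · -- the shape
    intro ω ω' _ _ h1
    funext al
    have h2 : d.Sh i₁ K (e + X) ω al = d.Sh i₁ K (e + X) ω' al := congrFun h1 al
    unfold GPath.Dat.Sh at h2 ⊢
    by_cases h3 : al ∈ mons (k + 1) K ∧ al ≠ 0
    · rw [if_pos h3, if_pos h3] at h2 ⊢
      unfold SLO.hz at h2 ⊢
      rw [ht_div e X, ht_div e X, h2]
    · rw [if_neg h3, if_neg h3]
  · have := row_near d f i₁ (R := e + j * h) hC₁ hG hf hcl (by omega) (by omega) (hqp ω hω)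
    rw [← hC₂] at this
    exact this
  · have := row_near d f i₁ (R := e + (j * h + h)) hC₁ hG hf hcl hjh hjh (hqp ω hω)
    rw [← hC₂] at this
    exact this

/-- The position is almost independent of the own sheet given the context of `d`, if the context
is the closed data with the cell of the position. -/
theorem ind_of {d : GPath.Dat (k + 1)} {f : FDat k d.Om} {a : ℕ} {δ : ℝ} (hp : IsLaw d.p)
    (h1 : Det d.p (fun ω => (d.T ω, d.E ω)) (fun ω => (f.Z ω, fl a (f.s ω))))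
    (h2 : Det d.p (fun ω => (f.Z ω, fl a (f.s ω))) (fun ω => (d.T ω, d.E ω)))
    (hi : f.Ind d.p δ) : mi d.p f.B f.s (fun ω => (d.T ω, d.E ω)) ≤ δ := by
  have t1 : mi d.p f.B f.s (fun ω => (d.T ω, d.E ω)) ≤
      mi d.p f.B f.s (fun ω => (fl a (f.s ω), f.Z ω)) := by
    refine mi_mono hp.nonneg (fun _ _ _ _ h => (Prod.ext_iff.mp h).1)
      (fun _ _ _ _ h => (Prod.ext_iff.mp h).1) (fun ω ω' a1 a2 h => ?_) (fun ω ω' a1 a2 h => ?_)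
    · have e := Prod.ext_iff.1 h
      exact h2 ω ω' a1 a2 (Prod.ext e.2 e.1)
    · have e := Prod.ext_iff.1 (h1 ω ω' a1 a2 h)
      exact Prod.ext e.2 e.1
  have t3 := mi_cond_le hp.nonneg f.B (fun ω => fl a (f.s ω)) f.s f.Z
  have t4 : mi d.p f.B (fun ω => (fl a (f.s ω), f.s ω)) f.Z ≤ mi d.p f.B f.s f.Z := by
    refine mi_mono hp.nonneg (fun _ _ _ _ h => (Prod.ext_iff.mp h).1) ?_ (fun _ _ _ _ h => h)
      (fun _ _ _ _ h => h)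
    intro ω ω' _ _ h
    have e : f.s ω = f.s ω' := (Prod.ext_iff.1 h).1
    exact Prod.ext (congrArg (fl a) e) e
  exact t1.trans (t3.trans (t4.trans hi))

/-- The blocks of rows of the height in `(e - (2 K + 1) X, e + X]` are not full on any large
event, given the (exact) position and the closed data. -/
def RowX {Om : Type} [Fintype Om] (f : FDat k Om) (p : Om → ℝ) (K e X : ℕ) (c κ π₀ : ℝ) : Prop :=
  ∀ R h : ℕ, κ * X ≤ h → e ≤ R + (2 * K + 1) * X → R + h ≤ e + X →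
    ∀ E : Set Om, π₀ ≤ Pr p E →
      CH (Pool.Agent.H49.Ent.cond p (fun ω => ω ∈ E) True) (f.N (R + h))
        (fun ω => (f.N R ω, (f.s ω, f.Z ω))) ≤ (1 - c) * (h * Real.log 2)

/-- **The path lemma over the data of the large box.** -/
theorem path_f (H : GPath.PathStmt) (k K : ℕ) (C0 c ε D C₁ : ℝ) (hK : 1 ≤ K) (hC0 : 0 ≤ C0)
    (hc : 0 < c) (hε : 0 < ε) (hD : 0 ≤ D) (hC₁ : 0 ≤ C₁) :
    ∃ (κ π₀ δ ι D' : ℝ) (X₀ : ℕ), 0 < κ ∧ κ ≤ 1 ∧ 0 < π₀ ∧ 0 < δ ∧ 0 < ι ∧ 0 ≤ D' ∧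
      ∀ (d : GPath.Dat (k + 1)) (f : FDat k d.Om) (i₁ : Fin (k + 1)) (a e x : ℕ), X₀ ≤ x →
        3 * (K * x) ≤ a → (2 * K + 1) * (K * x) ≤ e →
        d.OK i₁ K e (K * x) a C0 → d.Tim (ι * x) → f.OK d.p K (e + K * x) C₁ D →
        Det d.p (fun ω => (d.T ω, d.E ω)) (fun ω => (f.Z ω, fl a (f.s ω))) →
        Cls d f i₁ a (e + K * x) C₁ → f.Full d.p e (δ * x) → f.Ind d.p (δ * x) →
        mi d.p f.B f.s (fun ω => (d.T ω, d.E ω)) ≤ δ * x →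
        RowX f d.p K e (K * x) c κ π₀ →
        CH d.p (fun ω => (hz (e + K * x) (d.hl ω), d.E ω))
          (fun ω => (d.cx i₁ a (e + K * x) ω, (d.T ω, d.E ω))) ≤ ε * a + D' * x := by
  obtain ⟨κ₁, π₁, δ₁, ι, D', X₁, hκ₁, hκ₁1, hπ₁, hδ₁, hι, hD', h1⟩ :=
    H k K C0 (c / 2) ε hK hC0 (by positivity) hε
  obtain ⟨δ₂, X₂, hδ₂, h2⟩ := row_of k K c κ₁ π₁ C₁ hc hκ₁ hπ₁ hC₁
  obtain ⟨δ₃, hδ₃⟩ : ∃ δ₃ : ℝ, δ₃ = min (δ₁ / K) δ₂ := ⟨_, rfl⟩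
  have hK0 : (0 : ℝ) < K := by exact_mod_cast hK
  have hδ₃0 : 0 < δ₃ := by rw [hδ₃]; exact lt_min (by positivity) hδ₂
  obtain ⟨κ₄, π₄, δ₄, X₄, hκ₄, hκ₄1, hπ₄, hδ₄, h4⟩ := fstep k K c δ₃ D C₁ hc hδ₃0 hD hC₁
  refine ⟨min (κ₁ / 2) κ₄, min π₁ π₄, min δ₂ δ₄, ι, D', max X₁ (max X₂ X₄), by positivity,
    (min_le_right _ _).trans hκ₄1, lt_min hπ₁ hπ₄, lt_min hδ₂ hδ₄, hι, hD', ?_⟩
  intro d f i₁ a e x hx ha he hok htim hf hdet hcl hfull hind hmi hrow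
  have hx0 : (0 : ℝ) ≤ x := Nat.cast_nonneg x
  have hxK : (x : ℝ) ≤ ((K * x : ℕ) : ℝ) := by
    exact_mod_cast Nat.le_mul_of_pos_left x hK
  have hxK' : x ≤ K * x := Nat.le_mul_of_pos_left x hK
  have hKx0 : (0 : ℝ) ≤ ((K * x : ℕ) : ℝ) := Nat.cast_nonneg _
  have hx1 : X₁ ≤ x := (le_max_left _ _).trans hx
  have hx2 : X₂ ≤ K * x := (le_max_left _ _).trans ((le_max_right _ _).trans hx) |>.trans hxK'
  have hx4 : X₄ ≤ K * x := (le_max_right _ _).trans ((le_max_right _ _).trans hx) |>.trans hxK'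
  have b2 : min δ₂ δ₄ * x ≤ δ₂ * ((K * x : ℕ) : ℝ) :=
    mul_le_mul (min_le_left _ _) hxK hx0 hδ₂.le
  have b4 : min δ₂ δ₄ * x ≤ δ₄ * ((K * x : ℕ) : ℝ) :=
    mul_le_mul (min_le_right _ _) hxK hx0 hδ₄.le
  -- the rows
  have r4 : f.Row d.p K e (K * x) c κ₄ π₄ := by
    intro R h g1 g2 g3 E g4
    exact hrow R h ((mul_le_mul_of_nonneg_right (min_le_right _ _) hKx0).trans g1) g2 (by omega) E
      ((min_le_right _ _).trans g4)
  have r1 : f.Row d.p K (e + K * x) (K * x) c (κ₁ / 2) π₁ := by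
    intro R h g1 g2 g3 E g4
    exact hrow R h ((mul_le_mul_of_nonneg_right (min_le_left _ _) hKx0).trans g1) (by omega) g3 E
      ((min_le_left _ _).trans g4)
  -- the F-step
  have hfe : f.OK d.p K e C₁ D := ⟨hf.deg, hf.hs, hf.grad, fun ω hω r hr =>
    hf.near ω hω r (by omega)⟩
  have f1 : d.FR i₁ K e (K * x) (δ₃ * ((K * x : ℕ) : ℝ)) := by
    refine h4 d f i₁ a e (K * x) hx4 ha he hok.law hok.degG hfe hdet hcl ?_ ?_ r4
    · unfold FDat.Full at hfull ⊢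
      linarith
    · unfold FDat.Ind at hind ⊢
      linarith
  -- the rows of the own graph
  have f2 : d.Row i₁ K e (K * x) (c / 2) κ₁ π₁ := by
    refine h2 d f i₁ a e (K * x) D hx2 hok.law hok.degG hf hdet hcl (hmi.trans b2) ?_ r1
    unfold GPath.Dat.FR at f1 ⊢
    refine f1.trans (mul_le_mul_of_nonneg_right ?_ hKx0)
    rw [hδ₃]
    exact min_le_right _ _
  refine h1 d i₁ a e x hx1 hok htim ?_ f2
  unfold GPath.Dat.FR at f1 ⊢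
  refine f1.trans ?_
  have g1 : δ₃ ≤ δ₁ / K := by rw [hδ₃]; exact min_le_left _ _
  calc δ₃ * ((K * x : ℕ) : ℝ) ≤ δ₁ / K * ((K * x : ℕ) : ℝ) :=
        mul_le_mul_of_nonneg_right g1 hKx0
    _ = δ₁ * x := by
        push_cast
        field_simp

end Pool.ROWS
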